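import Pool.Agent.H944R2.C4

/-! A projective family over `ℂ` of smooth surfaces over `ℂ ∖ {0}` whose total space is a complex
threefold, which is a `ℤ`-homology fibre bundle and which is not smooth over `0`. -/

open Pool.Agent.Helper10.UC (PP)
open Pool.Agent.Helper534.HB (IsZHomologyFiberBundle)
open Pool.Agent.H944R2

/-- There is a closed complex submanifold `X` of dimension `3` of `ℂ × P(ℂ^ι)` such that for
`y ≠ 0` the fibre of the first projection `f : X → ℂ` over `y` is connected and `f` is a submersion
at each of its points (so the fibre is a smooth projective surface), such that `f` is a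
`ℤ`-homology fibre bundle, and such that `f` is not a submersion everywhere. -/
theorem Pool.Agent.Results.MP_ed9921_ag.Bielliptic.result :
    ∃ (ι : Type) (_ : Fintype ι) (X : Set (ℂ × PP ι)),
      IsClosed X ∧ IsComplexSubmanifold X 3 ∧
      (∀ y : ℂ, y ≠ 0 → IsConnected {p : PP ι | (y, p) ∈ X} ∧
        ∀ x ∈ X, x.1 = y → IsSmoothAt X x) ∧
      IsZHomologyFiberBundle (fun x : X => x.1.1) ∧
      ∃ x ∈ X, ¬ IsSmoothAt X x :=
  ⟨Ix, inferInstance, XX, isClosed_XX, XX_submanifold,
    fun y hy => ⟨fibre_connected y, fun _ hx h => smooth_ne hx (by rw [h]; exact hy)⟩,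
    bundle, pc, pc_mem, not_smooth_pc⟩
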